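import Mathlib
import Pool.Agent.K4H49.IR.Spec

/-!
# MONO (MP_5484c7_co): the star degrees of the graph `A m` are strictly increasing
-/

set_option autoImplicit false

open Finset

namespace Pool.Agent.K4H77.IR

open Pool.Agent.K4H49.IR

/-- the sum of `f` over the vertices `y` with `i + y > 2 m` -/
def T (m : ℕ) (f : ℕ → ℕ) (i : ℕ) : ℕ :=
  ∑ y ∈ range (2 * m + 1), if 2 * m < i + y then f y else 0

lemma T_zero (m : ℕ) (f : ℕ → ℕ) : T m f 0 = 0 := by
  unfold T
  apply Finset.sum_eq_zero
  intro y hy
  rw [mem_range] at hy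
  rw [if_neg (by omega)]

lemma T_succ (m : ℕ) (f : ℕ → ℕ) (i : ℕ) (hi : i ≤ 2 * m) :
    T m f (i + 1) = T m f i + f (2 * m - i) := by
  unfold T
  have h1 : ∑ y ∈ range (2 * m + 1), (if y = 2 * m - i then f y else 0) = f (2 * m - i) := by
    rw [Finset.sum_ite_eq', if_pos (mem_range.2 (by omega))]
  rw [← h1, ← Finset.sum_add_distrib]
  apply Finset.sum_congr rfl
  intro y hy
  rw [mem_range] at hy
  by_cases h : y = 2 * m - i
  · rw [if_pos (by omega), if_neg (by omega), if_pos h, zero_add]
  · by_cases h2 : 2 * m < i + y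
    · rw [if_pos (by omega), if_pos h2, if_neg h, add_zero]
    · rw [if_neg (by omega), if_neg h2, if_neg h]

lemma T_one (m i : ℕ) (hi : i ≤ 2 * m + 1) : T m (fun _ => 1) i = i := by
  induction i with
  | zero => exact T_zero _ _
  | succ k ih => rw [T_succ _ _ _ (by omega), ih (by omega)]

lemma nsum (m : ℕ) (hm : 1 ≤ m) (f : ℕ → ℕ) (i : Fin (2 * m + 1)) :
    ∑ y ∈ (A m).neighborFinset i, f y.1 + (if m < i.1 then f i.1 else 0) =
      T m f i.1 + (if i.1 = 0 then f (m + 1) else 0) + (if i.1 = m + 1 then f 0 else 0) := by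
  have hi := i.2
  have e1 : ∑ y ∈ (A m).neighborFinset i, f y.1 =
      ∑ y ∈ range (2 * m + 1), if (i.1 ≠ y ∧ (2 * m < i.1 + y ∨ (i.1 = 0 ∧ y = m + 1) ∨
        (y = 0 ∧ i.1 = m + 1))) then f y else 0 := by
    rw [← Fin.sum_univ_eq_sum_range (fun y => if (i.1 ≠ y ∧ (2 * m < i.1 + y ∨
      (i.1 = 0 ∧ y = m + 1) ∨ (y = 0 ∧ i.1 = m + 1))) then f y else 0) (2 * m + 1),
      ← Finset.sum_filter]
    apply Finset.sum_congr _ (fun _ _ => rfl)
    ext y
    rw [SimpleGraph.mem_neighborFinset, Finset.mem_filter]
    constructor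
    · intro h
      exact ⟨Finset.mem_univ _, fun e => h.1 (Fin.ext e), h.2⟩
    · intro h
      exact ⟨fun e => h.2.1 (congrArg Fin.val e), h.2.2⟩
  have e2 : (if m < i.1 then f i.1 else 0) =
      ∑ y ∈ range (2 * m + 1), if y = i.1 then (if m < i.1 then f i.1 else 0) else 0 := by
    rw [Finset.sum_ite_eq', if_pos (mem_range.2 hi)]
  have e3 : (if i.1 = 0 then f (m + 1) else 0) =
      ∑ y ∈ range (2 * m + 1), if y = m + 1 then (if i.1 = 0 then f (m + 1) else 0) else 0 := by
    rw [Finset.sum_ite_eq', if_pos (mem_range.2 (by omega))]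
  have e4 : (if i.1 = m + 1 then f 0 else 0) =
      ∑ y ∈ range (2 * m + 1), if y = 0 then (if i.1 = m + 1 then f 0 else 0) else 0 := by
    rw [Finset.sum_ite_eq', if_pos (mem_range.2 (by omega))]
  rw [e1, e2, e3, e4]
  unfold T
  rw [← Finset.sum_add_distrib, ← Finset.sum_add_distrib, ← Finset.sum_add_distrib]
  apply Finset.sum_congr rfl
  intro y hy
  rw [mem_range] at hy
  generalize i.1 = a at *
  by_cases h1 : y = a
  · subst h1
    rw [if_neg (by omega), if_pos rfl]
    by_cases h2 : m < y
    · rw [if_pos h2, if_pos (by omega)]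
      split_ifs <;> omega
    · rw [if_neg h2, if_neg (by omega)]
      split_ifs <;> omega
  · rw [if_neg h1]
    by_cases h2 : 2 * m < a + y
    · rw [if_pos (by omega), if_pos h2]
      split_ifs <;> omega
    · rw [if_neg h2]
      by_cases h3 : a = 0 ∧ y = m + 1
      · obtain ⟨h3, h4⟩ := h3
        subst h3 h4
        rw [if_pos (by omega), if_pos rfl, if_pos rfl, if_neg (by omega)]
        omega
      · by_cases h4 : y = 0 ∧ a = m + 1
        · obtain ⟨h5, h4⟩ := h4
          subst h5 h4
          rw [if_pos (by omega), if_neg (by omega), if_pos rfl, if_pos rfl]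
          omega
        · rw [if_neg (by omega)]
          split_ifs <;> omega

/-- the degree of `i` -/
def dg (m i : ℕ) : ℕ := if i = 0 then 1 else if i ≤ m + 1 then i else i - 1

lemma degree_eq (m : ℕ) (hm : 1 ≤ m) (i : Fin (2 * m + 1)) : (A m).degree i = dg m i.1 := by
  have h := nsum m hm (fun _ => 1) i
  have hi := i.2
  rw [T_one m i.1 (by omega)] at h
  rw [Finset.sum_const, smul_eq_mul, mul_one, SimpleGraph.card_neighborFinset_eq_degree] at h
  unfold dg
  split_ifs at h ⊢ <;> omega

/-- the weight of `y` -/
def wt (n m y : ℕ) : ℕ := (dg m y - 1).choose (n - 1)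

lemma sn_eq (n m : ℕ) (hn : 2 ≤ n) (hm : 1 ≤ m) (i : Fin (2 * m + 1)) :
    sn (A m) n i + (if m < i.1 then wt n m i.1 else 0) =
      (dg m i.1).choose n + T m (wt n m) i.1 + (if i.1 = 0 then wt n m (m + 1) else 0) := by
  have h := nsum m hm (wt n m) i
  have h0 : wt n m 0 = 0 := by
    unfold wt dg
    rw [if_pos rfl]
    exact Nat.choose_eq_zero_of_lt (by omega)
  have h1 : sn (A m) n i = (dg m i.1).choose n + ∑ y ∈ (A m).neighborFinset i, wt n m y.1 := by
    unfold sn wt
    rw [degree_eq m hm]
    congr 1
    apply Finset.sum_congr rfl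
    intro y _
    rw [degree_eq m hm]
  rw [h0] at h
  rw [h1]
  have h2 : (if i.1 = m + 1 then 0 else 0) = 0 := by split_ifs <;> rfl
  rw [h2] at h
  omega

theorem mono : StMono := by
  intro n m hn hm
  have key : ∀ a b : Fin (2 * m + 1), b.1 = a.1 + 1 → sn (A m) n a < sn (A m) n b := by
    intro a b hab
    have ha := sn_eq n m hn (by omega) a
    have hb := sn_eq n m hn (by omega) b
    have hb2 := b.2
    rw [hab] at hb hb2
    generalize a.1 = i at *
    rw [T_succ m _ i (by omega), if_neg (by omega : ¬ i + 1 = 0)] at hb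
    obtain ⟨k, rfl⟩ : ∃ k, n = k + 2 := ⟨n - 2, by omega⟩
    have pos : ∀ c, k + 1 ≤ c → 0 < c.choose (k + 1) := fun c hc => Nat.choose_pos hc
    have wlow : ∀ y, 1 ≤ y → y ≤ m + 1 → wt (k + 2) m y = (y - 1).choose (k + 1) := by
      intro y h1 h2
      unfold wt dg
      rw [if_neg (by omega), if_pos h2]
      rfl
    have whigh : ∀ y, m + 2 ≤ y → wt (k + 2) m y = (y - 2).choose (k + 1) := by
      intro y h1
      unfold wt dg
      rw [if_neg (by omega), if_neg (by omega)]
      rfl
    rcases Nat.eq_zero_or_pos i with h0 | h0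
    · -- i = 0
      subst h0
      rw [T_zero] at ha hb
      rw [if_neg (by omega)] at ha hb
      rw [if_pos rfl, wlow _ (by omega) (by omega)] at ha
      rw [whigh _ (by omega)] at hb
      have e1 : dg m 0 = 1 := rfl
      have e2 : dg m (0 + 1) = 1 := by unfold dg; rw [if_neg (by omega), if_pos (by omega)]
      rw [e1] at ha
      rw [e2] at hb
      have e3 : (m + 1 - 1).choose (k + 1) < (2 * m - 0 - 2).choose (k + 1) := by
        have e4 : (m + 1).choose (k + 1) ≤ (2 * m - 0 - 2).choose (k + 1) :=
          Nat.choose_le_choose _ (by omega)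
        have e5 : (m + 1).choose (k + 1) = m.choose k + m.choose (k + 1) :=
          Nat.choose_succ_succ _ _
        have e6 : 0 < m.choose k := Nat.choose_pos (by omega)
        have e7 : m + 1 - 1 = m := by omega
        rw [e7]
        omega
      omega
    · rw [if_neg (by omega : ¬ i = 0)] at ha
      rcases lt_trichotomy i m with h1 | h1 | h1
      · -- 1 ≤ i < m
        rw [if_neg (by omega)] at ha hb
        have e1 : dg m i = i := by unfold dg; rw [if_neg (by omega), if_pos (by omega)]
        have e2 : dg m (i + 1) = i + 1 := by unfold dg; rw [if_neg (by omega), if_pos (by omega)]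
        have e3 : i.choose (k + 2) ≤ (i + 1).choose (k + 2) := Nat.choose_le_choose _ (by omega)
        have e4 : 0 < wt (k + 2) m (2 * m - i) := by
          rcases Nat.lt_or_ge (m + 1) (2 * m - i) with h | h
          · rw [whigh _ (by omega)]
            exact pos _ (by omega)
          · rw [wlow _ (by omega) h]
            exact pos _ (by omega)
        rw [e1] at ha
        rw [e2] at hb
        omega
      · -- i = m
        subst h1
        rw [if_neg (by omega)] at ha
        rw [if_pos (by omega), wlow _ (by omega) (by omega), wlow _ (by omega) (by omega)] at hb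
        have e1 : dg i i = i := by unfold dg; rw [if_neg (by omega), if_pos (by omega)]
        have e2 : dg i (i + 1) = i + 1 := by unfold dg; rw [if_neg (by omega), if_pos (by omega)]
        have e3 : (i + 1).choose (k + 2) = i.choose (k + 1) + i.choose (k + 2) :=
          Nat.choose_succ_succ _ _
        have e4 : 0 < (2 * i - i - 1).choose (k + 1) := pos _ (by omega)
        have e5 : i + 1 - 1 = i := by omega
        rw [e1] at ha
        rw [e2, e3, e5] at hb
        omega
      · rcases Nat.eq_or_lt_of_le (Nat.succ_le_of_lt h1) with h2 | h2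
        · -- i = m + 1
          have h3 : i = m + 1 := h2.symm
          subst h3
          rw [if_pos (by omega), wlow _ (by omega) (by omega)] at ha
          rw [if_pos (by omega), wlow (2 * m - (m + 1)) (by omega) (by omega),
            whigh (m + 1 + 1) (by omega)] at hb
          have e1 : dg m (m + 1) = m + 1 := by
            unfold dg; rw [if_neg (by omega), if_pos (by omega)]
          have e2 : dg m (m + 1 + 1) = m + 1 := by
            unfold dg; rw [if_neg (by omega), if_neg (by omega)]; omega
          have e4 : 0 < (2 * m - (m + 1) - 1).choose (k + 1) := pos _ (by omega)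
          have e5 : m + 1 - 1 = m + 1 + 1 - 2 := by omega
          rw [e1, e5] at ha
          rw [e2] at hb
          omega
        · -- i ≥ m + 2
          have h3 : m + 2 ≤ i := h2
          rw [if_pos (by omega), whigh _ (by omega)] at ha
          rw [if_pos (by omega), whigh (i + 1) (by omega)] at hb
          have e1 : dg m i = i - 1 := by unfold dg; rw [if_neg (by omega), if_neg (by omega)]
          have e2 : dg m (i + 1) = i := by
            unfold dg; rw [if_neg (by omega), if_neg (by omega)]; omega
          have e3 : i.choose (k + 2) = (i - 1).choose (k + 1) + (i - 1).choose (k + 2) := by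
            obtain ⟨j, rfl⟩ : ∃ j, i = j + 1 := ⟨i - 1, by omega⟩
            exact Nat.choose_succ_succ _ _
          have e4 : 0 < (i - 2).choose (k + 1) := pos _ (by omega)
          have e5 : i + 1 - 2 = i - 1 := by omega
          rw [e1] at ha
          rw [e2, e3, e5] at hb
          omega
  have step : StrictMono (sn (A m) n) := by
    have h2 : ∀ d : ℕ, ∀ a b : Fin (2 * m + 1), b.1 = a.1 + d + 1 →
        sn (A m) n a < sn (A m) n b := by
      intro d
      induction d with
      | zero => intro a b h; exact key a b h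
      | succ d ih =>
        intro a b h
        have hb := b.2
        have h3 := ih a ⟨a.1 + d + 1, by omega⟩ rfl
        have h4 := key ⟨a.1 + d + 1, by omega⟩ b (by rw [h]; rfl)
        exact h3.trans h4
    intro a b hab
    have hab' : a.1 < b.1 := hab
    exact h2 (b.1 - a.1 - 1) a b (by omega)
  exact step

end Pool.Agent.K4H77.IR
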